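import Pool.Agent.H70.OQ.Targets
import Pool.Agent.H70.PW.Targets

/-!
pw_modules, row CLX (MP_0f8dca_lc): the functions of the expansion are in the class `Cl`.
-/

set_option autoImplicit false

namespace Pool.Agent.H17.PW.CLX

open Finset Pool.Agent.H6.NB Pool.Agent.H70.OQ Pool.Agent.H70.PW

/-- CLX: the functions of the expansion are in the class `Cl`. -/
theorem clx (h1 : Pool.Agent.H70.OQ.T_CLG) (h2 : Pool.Agent.H6.NB.T_CLB) : T_CLX := by
  intro B Ω _ _ nn qb D lev S t d h S' I G T e P π hS hS2 hSS' htS' hI hG hπ
  obtain ⟨_, _, hd, _, _⟩ := h2 (Σ s : {s // s ∈ I}, VV (qb s.1)) S' hS2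
  let φ : PosG B Ω nn qb → ((Σ s : {s // s ∈ I}, VV (qb s.1)) → Bool) → Bool :=
    fun v y => vlG T e (mixG I P fun s => π s fun v => y ⟨s, v⟩) v
  have hφ0 : ∀ v, Cl (Σ s : {s // s ∈ I}, VV (qb s.1)) S' 0 (φ v) := by
    intro v
    cases v with
    | cst b => exact Or.inl ⟨b, fun _ => rfl⟩
    | bas a => exact Or.inl ⟨T a, fun _ => rfl⟩
    | key s => exact Or.inl ⟨e s, fun _ => rfl⟩
    | blk s i v =>
      by_cases hs : s ∈ I
      · rcases hπ ⟨s, hs⟩ i v with ⟨b, hb⟩ | ⟨v', hv'⟩
        · refine Or.inl ⟨b, fun y => ?_⟩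
          show mixG I P (fun s => π s fun v => y ⟨s, v⟩) s i v = b
          unfold mixG
          rw [dif_pos hs]
          exact hb _
        · refine Or.inr ⟨⟨⟨s, hs⟩, v'⟩, fun y => ?_⟩
          show mixG I P (fun s => π s fun v => y ⟨s, v⟩) s i v = _
          unfold mixG
          rw [dif_pos hs]
          exact hv' _
      · refine Or.inl ⟨P s i v, fun y => ?_⟩
        show mixG I P (fun s => π s fun v => y ⟨s, v⟩) s i v = _
        unfold mixG
        rw [dif_neg hs]
  have hG' : Cl (Σ s : {s // s ∈ I}, VV (qb s.1)) S' (d + 2) fun y => G (fun v => φ v y) := by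
    have := h1 _ _ S t d S' 0 G φ hSS' htS' hφ0 hG
    rwa [Nat.zero_add] at this
  have hD' : ∀ s, Cl (Σ s : {s // s ∈ I}, VV (qb s.1)) S' (d + 2)
      fun y => D s (fun v => φ v y) := by
    intro s
    have := h1 _ _ S t d S' 0 (D s) φ hSS' htS' hφ0 (hS.fm s)
    rwa [Nat.zero_add] at this
  let f : ((Σ s : {s // s ∈ I}, VV (qb s.1)) → Bool) → Bool := fun y =>
    decide (G (vlG T e (mixG I P fun s => π s fun v => y ⟨s, v⟩)) = true ∧
      ∀ s ∈ I, thG (accG D (mixG I P fun s => π s fun v => y ⟨s, v⟩)) T e s = true)
  have hf : ∀ y, f y = true ↔ (G (fun v => φ v y) = true ∧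
      ∀ s : {s // s ∈ I}, D s.1 (fun v => φ v y) = !(e s.1)) := by
    intro y
    show decide _ = true ↔ _
    rw [decide_eq_true_iff]
    refine and_congr Iff.rfl ⟨fun hh s => ?_, fun hh s hs => ?_⟩
    · have h3 := hh s.1 s.2
      have h4 : xor (e s.1) (D s.1 (fun v => φ v y)) = true := h3
      revert h4
      cases e s.1 <;> cases D s.1 (fun v => φ v y) <;> simp
    · have h3 := hh ⟨s, hs⟩
      show xor (e s) (D s (fun v => φ v y)) = true
      simp only at h3
      rw [h3]
      cases e s <;> rfl
  have hneg : Cl (Σ s : {s // s ∈ I}, VV (qb s.1)) S' (d + 2 + 1) fun y => !(f y) := by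
    refine hd (d + 2) (Option {s // s ∈ I})
      (fun o y => match o with
        | none => G (fun v => φ v y)
        | some s => D s.1 (fun v => φ v y))
      (fun o => match o with
        | none => false
        | some s => e s.1) (fun y => !(f y)) ?_ ?_ ?_
    · rw [Fintype.card_option, Fintype.card_coe]
      exact hI
    · intro o
      cases o with
      | none => exact hG'
      | some s => exact hD' s.1
    · intro y
      rw [Bool.not_eq_true', ← Bool.not_eq_true, hf y, not_and_or]
      constructor
      · rintro (h3 | h3)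
        · exact ⟨none, by simpa using h3⟩
        · rw [not_forall] at h3
          obtain ⟨s, hs⟩ := h3
          refine ⟨some s, ?_⟩
          show D s.1 (fun v => φ v y) = e s.1
          revert hs
          cases e s.1 <;> cases D s.1 (fun v => φ v y) <;> simp
      · rintro ⟨o, ho⟩
        cases o with
        | none =>
          left
          have ho' : G (fun v => φ v y) = false := ho
          rw [ho']
          simp
        | some s =>
          right
          have ho' : D s.1 (fun v => φ v y) = e s.1 := ho
          intro hall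
          have h5 := hall s
          rw [ho'] at h5
          revert h5
          cases e s.1 <;> simp
  have hfin : Cl (Σ s : {s // s ∈ I}, VV (qb s.1)) S' (d + 2 + 1 + 1) f := by
    refine hd (d + 2 + 1) Unit (fun _ y => !(f y)) (fun _ => false) f ?_ ?_ ?_
    · rw [Fintype.card_unit]
      omega
    · intro _
      exact hneg
    · intro y
      constructor
      · intro h3
        exact ⟨(), by simp [h3]⟩
      · rintro ⟨_, h3⟩
        simpa using h3
  exact hfin

end Pool.Agent.H17.PW.CLX
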