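import Pool.Agent.H70.PW.Targets

/-!
pw_modules, row REM (MP_0f8dca_lc): the terms of order `L` are small.
-/

set_option autoImplicit false

namespace Pool.Agent.H17.PW.REM

open Finset Pool.Agent.H6.NB Pool.Agent.H70.OQ Pool.Agent.H70.PW

/-- the constant function is a formula of every depth -/
theorem fm_true {V : Type} (S t : ℕ) (hS : 1 ≤ S) : ∀ d, Fm (V := V) S t d fun _ => true
  | 0 => ⟨.leaf true, Nat.zero_le _, fun _ => rfl⟩
  | d + 1 => ⟨1, fun _ _ => true, fun _ => true, hS, fun _ => fm_true S t hS d,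
      fun _ => ⟨fun _ => ⟨0, rfl⟩, fun _ => rfl⟩⟩

theorem bi_and {α : Type} (I : Finset α) (b : Bool)
    (x : α → Bool) (hd : Decidable (b = true ∧ ∀ s ∈ I, x s = true)) :
    bi (@decide (b = true ∧ ∀ s ∈ I, x s = true) hd) = bi b * ∏ s ∈ I, bi (x s) := by
  by_cases hall : ∀ s ∈ I, x s = true
  · have h1 : ∏ s ∈ I, bi (x s) = 1 := by
      apply prod_eq_one
      intro s hs
      rw [hall s hs]
      simp [bi]
    rw [h1, mul_one]
    cases b
    · have : ¬ (false = true ∧ ∀ s ∈ I, x s = true) := fun h => by simpa using h.1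
      rw [decide_eq_false this]
    · have : (true = true ∧ ∀ s ∈ I, x s = true) := ⟨rfl, hall⟩
      rw [decide_eq_true this]
  · have h0 : ∏ s ∈ I, bi (x s) = 0 := by
      push Not at hall
      obtain ⟨s, hs, hx⟩ := hall
      apply prod_eq_zero hs
      simp [bi, hx]
    rw [h0, mul_zero]
    have : ¬ (b = true ∧ ∀ s ∈ I, x s = true) := fun h => hall h.2
    rw [decide_eq_false this]
    simp [bi]

/-- REM: the terms of order `L` are small. -/
theorem rem_ (h1 : T_MXB) (h2 : T_CLX) : T_REM := by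
  intro B Ω ρ _ _ _ _ nn qb D f lev S t d h S' L Bd I T e P hS hf hS1 hS2 hSS' htS' hL hBd hq her
    hFou hI
  let m : (∀ s : {s // s ∈ I}, Fin (nn s.1) → VV (qb s.1) → Bool) → ℝ := fun P' =>
    ∏ s : {s // s ∈ I}, (nuc true (qb s.1) (nn s.1) (P' s) - nuc false (qb s.1) (nn s.1) (P' s))
  let Et : ℝ := ∏ s ∈ I, etaB Bd (qb s) (nn s)
  let pr : (∀ s : {s // s ∈ I}, Fin (nn s.1) → VV (qb s.1) → Bool) → ℝ := fun P' =>
    ∏ s ∈ I, bi (thG (accG D (mixG I P P')) T e s)
  have key : ∀ G : (PosG B Ω nn qb → Bool) → Bool, Fm S t d G →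
      |∑ P', m P' * (bi (G (vlG T e (mixG I P P'))) * pr P')| ≤ Et := by
    intro G hG
    have h3 := h1 {s // s ∈ I} (fun s => qb s.1) (fun s => nn s.1) Bd
      (fun P' => decide (G (vlG T e (mixG I P P')) = true ∧
        ∀ s ∈ I, thG (accG D (mixG I P P')) T e s = true)) hBd (fun s => hq s.1)
      (fun s => her s.1) (by
        intro j π hj hπ
        rw [Fintype.card_coe, hI] at hj
        exact hFou I j _ hI hj (h2 B Ω nn qb D lev S t d h S' I G T e P π hS hS2 hSS' htS'
          (by rw [hI]; exact hL) hG hπ))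
    rw [prod_coe_sort I (fun s => etaB Bd (qb s) (nn s))] at h3
    refine le_trans (le_of_eq ?_) h3
    congr 1
    refine sum_congr rfl fun P' _ => ?_
    congr 1
    exact (bi_and I _ _ _).symm
  have hexp : ∀ P', m P' * (pr P' * gap f (vlG T e (mixG I P P'))) =
      4 * ∑ r, m P' * (bi (f r (vlG T e (mixG I P P'))) * pr P') -
        (2 * Fintype.card ρ + 1) * (m P' * (bi true * pr P')) := by
    intro P'
    unfold gap
    rw [← mul_sum, ← sum_mul]
    simp only [bi, if_true]
    ring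
  have hsum : ∑ P', m P' * (pr P' * gap f (vlG T e (mixG I P P'))) =
      4 * ∑ r, ∑ P', m P' * (bi (f r (vlG T e (mixG I P P'))) * pr P') -
        (2 * Fintype.card ρ + 1) * ∑ P', m P' * (bi true * pr P') := by
    rw [sum_comm, mul_sum, mul_sum, ← sum_sub_distrib]
    exact sum_congr rfl fun P' _ => hexp P'
  have hA : ∀ r, |∑ P', m P' * (bi (f r (vlG T e (mixG I P P'))) * pr P')| ≤ Et :=
    fun r => key (f r) (hf r)
  have hT : |∑ P', m P' * (bi true * pr P')| ≤ Et := key (fun _ => true) (fm_true S t hS1 d)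
  have hE : 0 ≤ Et := (abs_nonneg _).trans hT
  have hc : (1 : ℝ) ≤ Fintype.card ρ := by
    have : 0 < Fintype.card ρ := Fintype.card_pos
    exact_mod_cast this
  have hr : |∑ r, ∑ P', m P' * (bi (f r (vlG T e (mixG I P P'))) * pr P')| ≤
      Fintype.card ρ * Et := by
    refine (abs_sum_le_sum_abs _ _).trans ?_
    refine (sum_le_sum fun r _ => hA r).trans ?_
    rw [sum_const, card_univ, nsmul_eq_mul]
  show |∑ P', m P' * (pr P' * gap f (vlG T e (mixG I P P')))| ≤ Et * (7 * Fintype.card ρ)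
  rw [hsum]
  refine (abs_sub _ _).trans ?_
  rw [abs_mul, abs_mul, abs_of_nonneg (by norm_num : (0 : ℝ) ≤ 4),
    abs_of_nonneg (by positivity : (0 : ℝ) ≤ 2 * Fintype.card ρ + 1)]
  have h5 : (2 * (Fintype.card ρ : ℝ) + 1) * |∑ P', m P' * (bi true * pr P')| ≤
      (2 * Fintype.card ρ + 1) * Et := mul_le_mul_of_nonneg_left hT (by positivity)
  nlinarith

end Pool.Agent.H17.PW.REM
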