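import Pool.Agent.H70.OQ.Targets
import Pool.Agent.H70.PW.Targets

/-!
pw_modules, row TBE (MP_0f8dca_lc): the table lemma for all rows together.
-/

set_option autoImplicit false

namespace Pool.Agent.H17.PW.TBE

open Finset Pool.Agent.H6.NB Pool.Agent.H70.OQ Pool.Agent.H70.PW

/-- TBE: the table lemma for all rows together. -/
theorem tbe (h1 : T_TBD) (h2 : Pool.Agent.H70.OQ.T_FMM) : T_TBE := by
  intro X Y _ _ _ _ _ k S t w G q hw htw hq hq64 hG hY f hf
  have hf' : Fm S w (k + 1) f := h2 _ S S t w (k + 1) f le_rfl htw hf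
  have hcard : Fintype.card (Node X Y k) ≤ Fintype.card (Y k) :=
    le_trans (Nat.le_mul_of_pos_left _ hG) (hY k le_rfl)
  have key := h1 X Y S w G q hw hq hq64 k (fun i hi => hY i hi.le) (fun _ => univ) f hf'
    (fun a => by simpa using hcard)
  have hc : (0 : ℝ) < (Fintype.card (Y k) : ℝ) ^ Fintype.card (Node X Y k) := by
    have : 0 < Fintype.card (Y k) := Fintype.card_pos
    positivity
  have huw : ∀ h : Node X Y k → Y k, uw (fun _ => (univ : Finset (Y k))) h =
      1 / ((Fintype.card (Y k) : ℝ) ^ Fintype.card (Node X Y k)) := by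
    intro h
    unfold uw
    simp
  rw [sum_hid]
  have e : ∑ H : Hid X Y k, ∑ h : Node X Y k → Y k,
      uw (fun _ => (univ : Finset (Y k))) h * ∑ l : X → Bool, lw q l *
        ic (¬ Dx w l (fun b => sv b (k + 1) ((H, h) : Hid X Y (k + 1))) f) =
      1 / ((Fintype.card (Y k) : ℝ) ^ Fintype.card (Node X Y k)) *
        ∑ H : Hid X Y k, ∑ h : Node X Y k → Y k, ∑ l : X → Bool, lw q l *
          ic (¬ Dx w l (fun b => sv b (k + 1) ((H, h) : Hid X Y (k + 1))) f) := by
    rw [mul_sum]
    refine sum_congr rfl fun H _ => ?_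
    rw [mul_sum]
    refine sum_congr rfl fun h _ => ?_
    rw [huw]
  rw [e, one_div, inv_mul_le_iff₀ hc] at key
  refine key.trans (le_of_eq ?_)
  rw [card_hid]
  push_cast
  ring

end Pool.Agent.H17.PW.TBE
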